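import Pool.Agent.Q4.ZI.Stm

/-!
# JOB ZI-DIA (helper184)
-/

open Matrix

namespace Q184.ZI

open Q4.ZI

variable {R : Type} [CommRing R] {n : ℕ}

/-- elementary matrix as an element of GL -/
def tv (i j : Fin n) (h : i ≠ j) (c : R) : GL (Fin n) R where
  val := transvection i j c
  inv := transvection i j (-c)
  val_inv := by rw [transvection_mul_transvection_same i j h]; simp
  inv_val := by rw [transvection_mul_transvection_same i j h]; simp

theorem tv_mem (i j : Fin n) (h : i ≠ j) (c : R) : tv i j h c ∈ En R n :=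
  Subgroup.subset_closure ⟨i, j, c, h, rfl⟩

theorem sm_same (i j l : Fin n) (a b : R) :
    (single i j a : Matrix (Fin n) (Fin n) R) * single j l b = single i l (a * b) := by
  simp

theorem sm_ne (i j k l : Fin n) (h : j ≠ k) (a b : R) :
    (single i j a : Matrix (Fin n) (Fin n) R) * single k l b = 0 := by
  simp [h]

theorem sm_neg (i j : Fin n) (a : R) :
    (single i j (-a) : Matrix (Fin n) (Fin n) R) = - single i j a := by
  ext x y
  simp only [single, Matrix.of_apply, Matrix.neg_apply]
  split_ifs <;> simp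

theorem sm_sub (i j : Fin n) (a b : R) :
    (single i j (a - b) : Matrix (Fin n) (Fin n) R) = single i j a - single i j b := by
  rw [sub_eq_add_neg, single_add, sm_neg, sub_eq_add_neg]

theorem whitehead (i j : Fin n) (h : i ≠ j) (u v : R) (huv : u * v = 1) :
    (transvection i j u * transvection j i (-v) * transvection i j u) *
      (transvection i j (-1) * transvection j i 1 * transvection i j (-1)) =
      1 + single i i (u - 1) + single j j (v - 1) := by
  have h' : j ≠ i := h.symm
  have e1 : ∀ (a b : R), a * b = 1 → transvection i j a * transvection j i (-b) * transvection i j a =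
      1 - single i i 1 - single j j 1 + single i j a - single j i b := by
    intro a b hab
    have hba : b * a = 1 := by rw [mul_comm]; exact hab
    simp only [transvection, add_mul, mul_add, one_mul, mul_one, sm_same, sm_ne _ _ _ _ h',
      mul_neg, neg_mul, hab, hba, sm_neg]
    abel
  have e2 : transvection i j (-1 : R) * transvection j i 1 * transvection i j (-1) =
      1 - single i i 1 - single j j 1 + single i j (-1) - single j i (-1) := by
    have := e1 (-1) (-1) (by ring)
    rw [neg_neg] at this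
    exact this
  have hvu : v * u = 1 := by rw [mul_comm]; exact huv
  rw [e1 u v huv, e2]
  simp only [sub_mul, mul_sub, add_mul, mul_add, one_mul, mul_one, sm_same, sm_ne _ _ _ _ h,
      sm_ne _ _ _ _ h', mul_neg, sm_neg, sm_sub]
  abel

/-- diagonal matrices as a homomorphism -/
def dg : (Fin n → Rˣ) →* GL (Fin n) R :=
  (Units.map ((Matrix.diagonalRingHom (Fin n) R : (Fin n → R) →+* _) :
    (Fin n → R) →* Matrix (Fin n) (Fin n) R)).comp
    (MulEquiv.piUnits (M := fun _ : Fin n => R)).symm.toMonoidHom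

theorem dg_val (u : Fin n → Rˣ) : (dg u).1 = diagonal (fun i => (u i : R)) := rfl

theorem dg_inj : Function.Injective (dg : (Fin n → Rˣ) →* GL (Fin n) R) := by
  intro u w h
  have h1 := congrArg Units.val h
  rw [dg_val, dg_val] at h1
  have h2 := Matrix.diagonal_injective h1
  funext i
  exact Units.ext (congrFun h2 i)

theorem dg_pair (i j : Fin n) (h : i ≠ j) (u : Rˣ) :
    dg (Pi.mulSingle i u * Pi.mulSingle j u⁻¹) ∈ En R n := by
  have e : dg (Pi.mulSingle i u * Pi.mulSingle j u⁻¹) =
      (tv i j h u.1 * tv j i h.symm (-(u⁻¹).1) * tv i j h u.1) *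
      (tv i j h (-1) * tv j i h.symm 1 * tv i j h (-1)) := by
    apply Units.ext
    rw [dg_val]
    change _ = (transvection i j u.1 * transvection j i (-(u⁻¹).1) * transvection i j u.1) *
      (transvection i j (-1) * transvection j i 1 * transvection i j (-1))
    rw [whitehead i j h u.1 (u⁻¹).1 (by rw [← Units.val_mul, mul_inv_cancel, Units.val_one])]
    ext a b
    by_cases hab : a = b
    · subst hab
      by_cases hai : a = i
      · subst hai
        simp [single, h, h.symm, Pi.mulSingle_apply]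
      · by_cases haj : a = j
        · subst haj
          simp [single, h, h.symm, Pi.mulSingle_apply]
        · have hi : i ≠ a := fun e => hai e.symm
          have hj : j ≠ a := fun e => haj e.symm
          simp [single, hi, hj, hai, haj, Pi.mulSingle_apply]
    · have h1 : ¬ (i = a ∧ i = b) := fun ⟨x, y⟩ => hab (x ▸ y)
      have h2 : ¬ (j = a ∧ j = b) := fun ⟨x, y⟩ => hab (x ▸ y)
      simp [single, hab, h1, h2]
  rw [e]
  exact mul_mem (mul_mem (mul_mem (tv_mem _ _ _ _) (tv_mem _ _ _ _)) (tv_mem _ _ _ _))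
    (mul_mem (mul_mem (tv_mem _ _ _ _) (tv_mem _ _ _ _)) (tv_mem _ _ _ _))

theorem dg_mem (u : Fin n → Rˣ) (hu : ∏ i, u i = 1) : dg u ∈ En R n := by
  rcases Nat.eq_zero_or_pos n with h0 | h0
  · subst h0
    have : dg u = 1 := by
      apply Units.ext
      ext i
      exact i.elim0
    rw [this]
    exact one_mem _
  · set z : Fin n := ⟨0, h0⟩ with hz
    have e1 : u = ∏ i, (Pi.mulSingle i (u i) * Pi.mulSingle z (u i)⁻¹) := by
      rw [Finset.prod_mul_distrib, Finset.univ_prod_mulSingle]
      have e2 : ∏ i, (Pi.mulSingle z (u i)⁻¹ : Fin n → Rˣ) = 1 := by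
        have e3 : ∏ i, (Pi.mulSingle z (u i)⁻¹ : Fin n → Rˣ) =
            (MonoidHom.mulSingle (fun _ : Fin n => Rˣ) z) (∏ i, (u i)⁻¹) := by
          rw [map_prod]
          rfl
        rw [e3, Finset.prod_inv_distrib, hu, inv_one, map_one]
      rw [e2, mul_one]
    change u ∈ (En R n).comap dg
    rw [e1]
    refine Subgroup.prod_mem _ fun i _ => ?_
    change dg _ ∈ En R n
    by_cases hi : i = z
    · subst hi
      have : (Pi.mulSingle z (u z) * Pi.mulSingle z (u z)⁻¹ : Fin n → Rˣ) = 1 := by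
        rw [← Pi.mulSingle_mul, mul_inv_cancel, Pi.mulSingle_one]
      rw [this, map_one]
      exact one_mem _
    · exact dg_pair i z hi (u i)

theorem det_En {x : GL (Fin n) R} (hx : x ∈ En R n) : x.1.det = 1 := by
  induction hx using Subgroup.closure_induction with
  | mem x h =>
    obtain ⟨i, j, c, hij, e⟩ := h
    rw [e, det_transvection_of_ne i j hij]
  | one => simp
  | mul x y _ _ hx hy => rw [Units.val_mul, det_mul, hx, hy, mul_one]
  | inv x _ hx =>
    have h1 : (x * x⁻¹).1.det = 1 := by simp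
    rw [Units.val_mul, det_mul, hx, one_mul] at h1
    exact h1

/-- the group of vectors of roots of unity with product one -/
def KK (R : Type) [CommRing R] (q n : ℕ) : Subgroup (Fin n → Rˣ) where
  carrier := {u | (∀ i, u i ^ q = 1) ∧ ∏ i, u i = 1}
  one_mem' := ⟨fun _ => one_pow q, by simp⟩
  mul_mem' := by
    rintro u w ⟨h1, h2⟩ ⟨h3, h4⟩
    exact ⟨fun i => by rw [Pi.mul_apply, mul_pow, h1, h3, mul_one], by
      simp [Finset.prod_mul_distrib, h2, h4]⟩
  inv_mem' := by
    rintro u ⟨h1, h2⟩
    exact ⟨fun i => by rw [Pi.inv_apply, inv_pow, h1, inv_one], by simp [h2]⟩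

/-- the isomorphism with the diagonal group -/
def ff (R : Type) [CommRing R] (q n : ℕ) : KK R q n →* Dg R q n :=
  MonoidHom.mk' (fun u => ⟨⟨dg u.1, dg_mem u.1 u.2.2⟩, u.1, u.2.1, rfl⟩) (by
    intro u w
    apply Subtype.ext
    apply Subtype.ext
    exact map_mul dg u.1 w.1)

theorem ff_val (q : ℕ) (u : KK R q n) : (ff R q n u).1.1 = dg u.1 := rfl

theorem ff_bij (q : ℕ) : Function.Bijective (ff R q n) := by
  constructor
  · intro u w h
    have h1 : dg u.1 = dg w.1 := by rw [← ff_val, ← ff_val, h]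
    exact Subtype.ext (dg_inj h1)
  · rintro ⟨x, u, hu, hx⟩
    have h1 : x.1 = dg u := Units.ext hx
    have h2 : ∏ i, u i = 1 := by
      have h3 := det_En x.2
      rw [hx, det_diagonal] at h3
      apply Units.ext
      rw [Units.coe_prod, h3, Units.val_one]
    refine ⟨⟨u, hu, h2⟩, ?_⟩
    apply Subtype.ext
    apply Subtype.ext
    exact h1.symm

/-- the isomorphism with the diagonal group -/
noncomputable def ee (R : Type) [CommRing R] (q n : ℕ) : KK R q n ≃* Dg R q n :=
  MulEquiv.ofBijective (ff R q n) (ff_bij q)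

theorem ee_val (q : ℕ) (u : KK R q n) : (ee R q n u).1.1 = dg u.1 := rfl

theorem fin_KK [IsDomain R] (q : ℕ) (hq : 0 < q) : Finite (KK R q n) := by
  have : NeZero q := ⟨hq.ne'⟩
  have : Finite (rootsOfUnity q R) := inferInstance
  refine Finite.of_injective (fun (u : KK R q n) (i : Fin n) =>
    (⟨u.1 i, by rw [mem_rootsOfUnity]; exact u.2.1 i⟩ : rootsOfUnity q R)) ?_
  intro u w h
  apply Subtype.ext
  funext i
  have := congrFun h i
  exact congrArg Subtype.val this

theorem qq_pos {p : ℕ} (hp : p.Prime) : 0 < qq p := by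
  unfold qq
  split_ifs
  · norm_num
  · exact hp.pos

theorem dvd_qq (p : ℕ) : p ∣ qq p := by
  unfold qq
  split_ifs with h
  · rw [h]; norm_num
  · exact dvd_rfl

theorem qq_dvd (p : ℕ) : qq p ∣ p ^ 2 := by
  unfold qq
  split_ifs with h
  · rw [h]; norm_num
  · exact dvd_pow_self p (by norm_num)

/-- the `p`-torsion in the group of vectors -/
def KP (R : Type) [CommRing R] (p n : ℕ) : Subgroup (KK R (qq p) n) :=
  (powMonoidHom p : KK R (qq p) n →* KK R (qq p) n).ker

theorem mem_KP {p : ℕ} {u : KK R (qq p) n} : u ∈ KP R p n ↔ ∀ i, u.1 i ^ p = 1 := by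
  unfold KP
  rw [MonoidHom.mem_ker]
  constructor
  · intro h i
    have := congrFun (congrArg Subtype.val h) i
    simpa using this
  · intro h
    apply Subtype.ext
    funext i
    simpa using h i

theorem card_KP [IsDomain R] {p m : ℕ} (hp : p.Prime) (hμ : ∃ ζ : R, IsPrimitiveRoot ζ (qq p)) :
    Nat.card (KP R p (m + 1)) = p ^ m := by
  have : NeZero p := ⟨hp.ne_zero⟩
  have h1 : Nat.card (rootsOfUnity p R) = p := by
    obtain ⟨ζ, hζ⟩ := hμ
    obtain ⟨c, hc⟩ := dvd_qq p
    have h2 : IsPrimitiveRoot (ζ ^ c) p := hζ.pow (qq_pos hp) (by rw [hc, mul_comm])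
    exact h2.card_rootsOfUnity
  have h3 : Nat.card (KP R p (m + 1)) = Nat.card (Fin m → rootsOfUnity p R) := by
    refine Nat.card_congr
      { toFun := fun u i => ⟨u.1.1 i.succ, by
          rw [mem_rootsOfUnity]; exact (mem_KP.1 u.2) i.succ⟩
        invFun := fun w => ⟨⟨Fin.cons (∏ i, (w i).1)⁻¹ (fun i => (w i).1), ?_, ?_⟩, ?_⟩
        left_inv := ?_
        right_inv := ?_ }
    · have hw : ∀ i, (w i).1 ^ p = 1 := fun i => (mem_rootsOfUnity _ _).1 (w i).2
      obtain ⟨c, hc⟩ := dvd_qq p
      intro i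
      refine Fin.cases ?_ (fun j => ?_) i
      · rw [Fin.cons_zero, hc, pow_mul, inv_pow, ← Finset.prod_pow]
        simp [hw]
      · rw [Fin.cons_succ, hc, pow_mul, hw, one_pow]
    · rw [Fin.prod_univ_succ]
      simp
    · rw [mem_KP]
      have hw : ∀ i, (w i).1 ^ p = 1 := fun i => (mem_rootsOfUnity _ _).1 (w i).2
      intro i
      refine Fin.cases ?_ (fun j => ?_) i
      · change (∏ i, (w i).1)⁻¹ ^ p = 1
        rw [inv_pow, ← Finset.prod_pow]
        simp [hw]
      · exact hw j
    · rintro ⟨⟨u, hu, hu1⟩, hu2⟩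
      apply Subtype.ext
      apply Subtype.ext
      funext i
      refine Fin.cases ?_ (fun j => ?_) i
      · change (∏ i : Fin m, u i.succ)⁻¹ = u 0
        rw [Fin.prod_univ_succ] at hu1
        exact (eq_inv_of_mul_eq_one_left hu1).symm
      · rfl
    · intro w
      funext i
      rfl
  rw [h3, Nat.card_fun, h1, Nat.card_eq_fintype_card, Fintype.card_fin]

theorem sq_KP [IsDomain R] {p m : ℕ} (hp : p.Prime) (hμ : ∃ ζ : R, IsPrimitiveRoot ζ (qq p))
    (g : KK R (qq p) (m + 1)) (hg : g ∈ KP R p (m + 1)) : ∃ h, h ^ 2 = g := by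
  rw [mem_KP] at hg
  rcases hp.eq_two_or_odd' with h2 | h2
  · subst h2
    obtain ⟨ζ, hζ⟩ := hμ
    have h4 : qq 2 = 4 := by simp [qq]
    rw [h4] at hζ
    have hζ4 : ζ ^ 4 = 1 := hζ.pow_eq_one
    have hζ2 : ζ ^ 2 ≠ 1 := hζ.pow_ne_one_of_pos_of_lt (by norm_num) (by norm_num)
    have hm1 : ζ ^ 2 = -1 := by
      have : (ζ ^ 2 - 1) * (ζ ^ 2 + 1) = 0 := by linear_combination hζ4
      rcases mul_eq_zero.1 this with h | h
      · exact absurd (sub_eq_zero.1 h) hζ2
      · exact eq_neg_of_add_eq_zero_left h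
    obtain ⟨z, hz⟩ : ∃ z : Rˣ, (z : R) = ζ := by
      refine ⟨⟨ζ, ζ ^ 3, ?_, ?_⟩, rfl⟩
      · linear_combination hζ4
      · linear_combination hζ4
    have hz2 : z ^ 2 = -1 := by
      apply Units.ext
      rw [Units.val_pow_eq_pow_val, hz, hm1]
      simp
    have key : ∀ v : Rˣ, v ^ 2 = 1 → v = 1 ∨ v = -1 := by
      intro v hv
      have : ((v : R) - 1) * (v + 1) = 0 := by
        have h5 : (v : R) ^ 2 = 1 := by
          have := congrArg Units.val hv
          simpa using this
        linear_combination h5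
      rcases mul_eq_zero.1 this with h | h
      · left; apply Units.ext; simpa using sub_eq_zero.1 h
      · right; apply Units.ext; simpa using eq_neg_of_add_eq_zero_left h
    have h1 : ∀ i, ∃ v : Rˣ, v ^ 2 = g.1 i := by
      intro i
      rcases key _ (hg i) with h | h
      · exact ⟨1, by rw [h, one_pow]⟩
      · exact ⟨z, by rw [h, hz2]⟩
    choose v hv using h1
    have hP : (∏ i, v i) ^ 2 = 1 := by
      rw [← Finset.prod_pow]
      simp only [hv]
      exact g.2.2
    -- the correction
    obtain ⟨ε, hε, hε2⟩ : ∃ ε : Rˣ, ε ^ 2 = 1 ∧ ε * ∏ i, v i = 1 := by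
      rcases key _ hP with h | h
      · exact ⟨1, one_pow 2, by rw [h, one_mul]⟩
      · exact ⟨-1, by simp, by rw [h]; simp⟩
    let w : Fin (m + 1) → Rˣ := Pi.mulSingle 0 ε * v
    have hw2 : ∀ i, w i ^ 2 = g.1 i := by
      intro i
      change ((Pi.mulSingle 0 ε : Fin (m + 1) → Rˣ) i * v i) ^ 2 = _
      rw [mul_pow, hv]
      by_cases hi : i = 0
      · subst hi
        rw [Pi.mulSingle_eq_same, hε, one_mul]
      · rw [Pi.mulSingle_eq_of_ne hi, one_pow, one_mul]
    refine ⟨⟨w, ?_, ?_⟩, ?_⟩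
    · intro i
      rw [h4, show 4 = 2 * 2 from rfl, pow_mul, hw2]
      exact hg i
    · change ∏ i, ((Pi.mulSingle 0 ε : Fin (m + 1) → Rˣ) i * v i) = 1
      rw [Finset.prod_mul_distrib]
      have : ∏ i, (Pi.mulSingle 0 ε : Fin (m + 1) → Rˣ) i = ε := by
        rw [Finset.prod_eq_single 0]
        · exact Pi.mulSingle_eq_same (M := fun _ : Fin (m + 1) => Rˣ) 0 ε
        · intro b _ hb
          exact Pi.mulSingle_eq_of_ne (M := fun _ : Fin (m + 1) => Rˣ) hb ε
        · intro h; exact absurd (Finset.mem_univ _) h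
      rw [this]
      exact hε2
    · apply Subtype.ext
      funext i
      exact hw2 i
  · obtain ⟨k, hk⟩ := h2
    refine ⟨g ^ (k + 1), ?_⟩
    have hgp : g ^ p = 1 := by
      apply Subtype.ext
      funext i
      simpa using hg i
    rw [← pow_mul, show (k + 1) * 2 = p + 1 by omega, pow_succ, hgp, one_mul]

theorem dconj (u w : Fin n → R) (huw : ∀ i, u i * w i = 1) (i j : Fin n) (h : i ≠ j) (c : R) :
    diagonal u * transvection i j c * diagonal w * transvection i j (-c) =
      transvection i j ((u i * w j - 1) * c) := by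
  have e1 : diagonal u * transvection i j c * diagonal w = transvection i j (u i * w j * c) := by
    ext a b
    rw [Matrix.mul_diagonal, Matrix.diagonal_mul]
    by_cases hab : a = b
    · subst hab
      have h1 : ¬ (i = a ∧ j = a) := fun ⟨x, y⟩ => h (x.trans y.symm)
      simp [transvection, single, h1, huw]
    · by_cases h1 : i = a ∧ j = b
      · obtain ⟨rfl, rfl⟩ := h1
        simp [transvection, single, hab]
        ring
      · simp [transvection, single, hab, h1]
  rw [e1, transvection_mul_transvection_same i j h]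
  congr 1
  ring

theorem tcomm (i j l : Fin n) (hij : i ≠ j) (hjl : j ≠ l) (hil : i ≠ l) (a b : R) :
    transvection i j a * transvection j l b * transvection i j (-a) * transvection j l (-b) =
      transvection i l (a * b) := by
  simp only [transvection, add_mul, mul_add, one_mul, mul_one, sm_same, sm_ne _ _ _ _ hij.symm,
    sm_ne _ _ _ _ hjl.symm, sm_ne _ _ _ _ hil.symm, mul_neg, neg_mul, sm_neg, zero_mul]
  abel

/-- elementary matrix as an element of the group -/
def TT (i j : Fin n) (h : i ≠ j) (c : R) : En R n := ⟨tv i j h c, tv_mem i j h c⟩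

theorem TT_comm (i j l : Fin n) (hij : i ≠ j) (hjl : j ≠ l) (hil : i ≠ l) (a b : R) :
    TT i j hij a * TT j l hjl b * (TT i j hij a)⁻¹ * (TT j l hjl b)⁻¹ = TT i l hil (a * b) := by
  apply Subtype.ext
  apply Units.ext
  exact tcomm i j l hij hjl hil a b

theorem tDia : SDia := by
  intro R _ _ p n hp hμ hn
  obtain ⟨m, rfl⟩ : ∃ m, n = m + 1 := ⟨n - 1, by omega⟩
  have hfin : Finite (KK R (qq p) (m + 1)) := fin_KK _ (qq_pos hp)
  have hfin' : Finite (Dg R (qq p) (m + 1)) := Finite.of_equiv _ (ee R (qq p) (m + 1)).toEquiv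
  refine ⟨hfin', ?_, (KP R p (m + 1)).map (ee R (qq p) (m + 1)).toMonoidHom, ?_, ?_, ?_, ?_⟩
  · intro g
    refine ⟨2, ?_⟩
    obtain ⟨u, rfl⟩ := (ee R (qq p) (m + 1)).surjective g
    have : u ^ (p ^ 2) = 1 := by
      obtain ⟨c, hc⟩ := qq_dvd p
      apply Subtype.ext
      funext i
      change (u.1 i) ^ (p ^ 2) = 1
      rw [hc, pow_mul, u.2.1 i, one_pow]
    rw [← map_pow, this, map_one]
  · rintro g ⟨u, hu, rfl⟩
    have : u ^ p = 1 := hu
    rw [← map_pow, this, map_one]
  · rintro g ⟨u, hu, rfl⟩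
    obtain ⟨h, hh⟩ := sq_KP hp hμ u hu
    exact ⟨ee R (qq p) (m + 1) h, by rw [← map_pow, hh]; rfl⟩
  · rw [← Nat.card_congr ((KP R p (m + 1)).equivMapOfInjective
      (ee R (qq p) (m + 1)).toMonoidHom (ee R (qq p) (m + 1)).injective).toEquiv, card_KP hp hμ]
    rfl
  · intro Ω' hΩ h1 h2 N hN hgN ζ' hζ' x hx
    -- a non scalar element
    obtain ⟨u, hu, huΩ, i, j, hij⟩ : ∃ u : KK R (qq p) (m + 1), u ∈ KP R p (m + 1) ∧
        ee R (qq p) (m + 1) u ∈ Ω' ∧ ∃ i j, u.1 i ≠ u.1 j := by
      by_contra hcon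
      push Not at hcon
      have hK : ∀ u : KK R (qq p) (m + 1), ee R (qq p) (m + 1) u ∈ Ω' → u ∈ KP R p (m + 1) := by
        intro u hu
        obtain ⟨w, hw, hwe⟩ := hΩ hu
        have : w = u := (ee R (qq p) (m + 1)).injective hwe
        rw [← this]; exact hw
      have hNp : NeZero p := ⟨hp.ne_zero⟩
      have hsc : ∀ g : Ω', ∀ i, ((ee R (qq p) (m + 1)).symm g.1).1 i =
          ((ee R (qq p) (m + 1)).symm g.1).1 0 := by
        intro g i
        have hg : ee R (qq p) (m + 1) ((ee R (qq p) (m + 1)).symm g.1) ∈ Ω' := by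
          rw [MulEquiv.apply_symm_apply]; exact g.2
        exact hcon _ (hK _ hg) hg i 0
      have hp1 : ∀ g : Ω', ((ee R (qq p) (m + 1)).symm g.1).1 0 ^ p = 1 := by
        intro g
        have hg : ee R (qq p) (m + 1) ((ee R (qq p) (m + 1)).symm g.1) ∈ Ω' := by
          rw [MulEquiv.apply_symm_apply]; exact g.2
        exact mem_KP.1 (hK _ hg) 0
      have hinj : ∀ g g' : Ω', ((ee R (qq p) (m + 1)).symm g.1).1 0 =
          ((ee R (qq p) (m + 1)).symm g'.1).1 0 → g = g' := by
        intro g g' hgg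
        apply Subtype.ext
        apply (ee R (qq p) (m + 1)).symm.injective
        apply Subtype.ext
        funext i
        rw [hsc g i, hsc g' i, hgg]
      by_cases hpn : p ∣ m + 1
      · have h3 := h2 hpn
        have h4 : Nat.card Ω' ≤ Nat.card (rootsOfUnity p R) := by
          refine Nat.card_le_card_of_injective (fun g : Ω' =>
            (⟨((ee R (qq p) (m + 1)).symm g.1).1 0, by
              rw [mem_rootsOfUnity]; exact hp1 g⟩ : rootsOfUnity p R)) ?_
          intro g g' hgg
          exact hinj g g' (congrArg Subtype.val hgg)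
        have h5 : Nat.card (rootsOfUnity p R) = p := hζ'.card_rootsOfUnity
        omega
      · have h3 : ∀ g : Ω', ((ee R (qq p) (m + 1)).symm g.1).1 0 = 1 := by
          intro g
          have h4 := ((ee R (qq p) (m + 1)).symm g.1).2.2
          have h5 : ∏ i, ((ee R (qq p) (m + 1)).symm g.1).1 i =
              ((ee R (qq p) (m + 1)).symm g.1).1 0 ^ (m + 1) := by
            rw [Finset.prod_congr rfl (fun i _ => hsc g i), Finset.prod_const, Finset.card_univ,
              Fintype.card_fin]
          rw [h5] at h4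
          have h6 : orderOf (((ee R (qq p) (m + 1)).symm g.1).1 0) ∣ Nat.gcd p (m + 1) :=
            Nat.dvd_gcd (orderOf_dvd_of_pow_eq_one (hp1 g)) (orderOf_dvd_of_pow_eq_one h4)
          rw [show Nat.gcd p (m + 1) = 1 from (Nat.Prime.coprime_iff_not_dvd hp).2 hpn] at h6
          exact orderOf_eq_one_iff.1 (Nat.dvd_one.1 h6)
        have h4 : Subsingleton Ω' := ⟨fun g g' => hinj g g' (by rw [h3, h3])⟩
        have h5 : Nat.card Ω' ≤ 1 := Finite.card_le_one_iff_subsingleton.2 h4
        omega
    have hne : i ≠ j := fun e => hij (by rw [e])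
    have hNmem : (ee R (qq p) (m + 1) u).1 ∈ N := hgN _ huΩ
    have hT1 : ∀ c : R, TT i j hne (((u.1 i : R) * ((u.1 j)⁻¹ : Rˣ) - 1) * c) ∈ N := by
      intro c
      have h3 : (ee R (qq p) (m + 1) u).1 * TT i j hne c * ((ee R (qq p) (m + 1) u).1)⁻¹ *
          (TT i j hne c)⁻¹ ∈ N := by
        rw [mul_assoc, mul_assoc, ← mul_assoc (TT i j hne c)]
        exact N.mul_mem hNmem (hN.conj_mem _ (N.inv_mem hNmem) _)
      have h4 : (ee R (qq p) (m + 1) u).1 * TT i j hne c * ((ee R (qq p) (m + 1) u).1)⁻¹ *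
          (TT i j hne c)⁻¹ = TT i j hne (((u.1 i : R) * ((u.1 j)⁻¹ : Rˣ) - 1) * c) := by
        apply Subtype.ext
        apply Units.ext
        have h5 : ((((ee R (qq p) (m + 1) u).1)⁻¹ : En R (m + 1)).1).1 =
            diagonal (fun i => (((u.1 i)⁻¹ : Rˣ) : R)) := by
          change ((dg u.1)⁻¹).1 = _
          rw [← map_inv]
          rfl
        change diagonal (fun i => (u.1 i : R)) * transvection i j c *
          ((((ee R (qq p) (m + 1) u).1)⁻¹ : En R (m + 1)).1).1 * transvection i j (-c) = _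
        rw [h5, dconj _ _ (fun i => by rw [← Units.val_mul, mul_inv_cancel, Units.val_one]) i j hne]
        rfl
      rw [← h4]
      exact h3
    -- divisibility
    have hη : IsPrimitiveRoot ((u.1 i : R) * ((u.1 j)⁻¹ : Rˣ)) p := by
      have h3 : ((u.1 i : R) * ((u.1 j)⁻¹ : Rˣ)) ^ p = 1 := by
        have h4 : (u.1 i * (u.1 j)⁻¹) ^ p = 1 := by
          rw [mul_pow, inv_pow, mem_KP.1 hu, mem_KP.1 hu, inv_one, mul_one]
        have := congrArg Units.val h4
        simpa using this
      have h4 : (u.1 i : R) * ((u.1 j)⁻¹ : Rˣ) ≠ 1 := by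
        intro h5
        apply hij
        rw [← Units.val_mul] at h5
        have h6 : u.1 i * (u.1 j)⁻¹ = 1 := Units.ext h5
        exact mul_inv_eq_one.1 h6
      have hpf : Fact p.Prime := ⟨hp⟩
      have h5 : orderOf ((u.1 i : R) * ((u.1 j)⁻¹ : Rˣ)) = p := orderOf_eq_prime h3 h4
      exact IsPrimitiveRoot.iff_orderOf.2 h5
    have hNp : NeZero p := ⟨hp.ne_zero⟩
    obtain ⟨k, _, hk⟩ := hη.eq_pow_of_pow_eq_one hζ'.pow_eq_one
    obtain ⟨t, ht⟩ : ((u.1 i : R) * ((u.1 j)⁻¹ : Rˣ) - 1) ∣ ζ' - 1 := by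
      rw [← hk]
      simpa using sub_dvd_pow_sub_pow ((u.1 i : R) * ((u.1 j)⁻¹ : Rˣ)) 1 k
    have hT2 : ∀ b : R, TT i j hne ((1 - ζ') * b) ∈ N := by
      intro b
      have h3 : (1 - ζ') * b = ((u.1 i : R) * ((u.1 j)⁻¹ : Rˣ) - 1) * (-(t * b)) := by
        linear_combination (-b) * ht
      rw [h3]
      exact hT1 _
    -- other pairs
    have hcom : ∀ a b : En R (m + 1), a ∈ N → a * b * a⁻¹ * b⁻¹ ∈ N := by
      intro a b ha
      rw [mul_assoc, mul_assoc, ← mul_assoc b]
      exact N.mul_mem ha (hN.conj_mem _ (N.inv_mem ha) _)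
    have hcom' : ∀ a b : En R (m + 1), b ∈ N → a * b * a⁻¹ * b⁻¹ ∈ N := by
      intro a b hb
      exact N.mul_mem (hN.conj_mem _ hb _) (N.inv_mem hb)
    let P : Fin (m + 1) → Fin (m + 1) → Prop := fun k l => ∀ (h : k ≠ l) (b : R),
      TT k l h ((1 - ζ') * b) ∈ N
    have hr : ∀ a b c, a ≠ b → b ≠ c → a ≠ c → P a b → P a c := by
      intro a b c hab hbc hac hP _ y
      have h3 := TT_comm a b c hab hbc hac ((1 - ζ') * y) 1
      rw [mul_one] at h3
      rw [← h3]
      exact hcom _ _ (hP hab y)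
    have hl : ∀ a b c, a ≠ b → b ≠ c → a ≠ c → P b c → P a c := by
      intro a b c hab hbc hac hP _ y
      have h3 := TT_comm a b c hab hbc hac 1 ((1 - ζ') * y)
      rw [one_mul] at h3
      rw [← h3]
      exact hcom' _ _ (hP hbc y)
    have hP0 : P i j := fun _ b => hT2 b
    -- P k j for k ≠ j
    have hA : ∀ k l, k ≠ j → k ≠ l → P k l := by
      intro k l hkj hkl
      have h3 : P k j := by
        by_cases hki : k = i
        · rw [hki]; exact hP0
        · exact hl k i j hki hne hkj hP0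
      by_cases hlj : l = j
      · rw [hlj]; exact h3
      · exact hr k j l hkj (fun e => hlj e.symm) hkl h3
    have hB : ∀ k l, k ≠ l → P k l := by
      intro k l hkl
      by_cases hkj : k = j
      · subst hkj
        -- choose s different from k and l
        obtain ⟨s, hs1, hs2⟩ : ∃ s : Fin (m + 1), s ≠ k ∧ s ≠ l := by
          have h3 : ({k, l} : Finset (Fin (m + 1))).card < Fintype.card (Fin (m + 1)) := by
            rw [Fintype.card_fin]
            exact lt_of_le_of_lt Finset.card_le_two (by omega)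
          obtain ⟨s, hs⟩ : ∃ s, s ∉ ({k, l} : Finset (Fin (m + 1))) := by
            by_contra h4
            push Not at h4
            have h5 := Finset.card_le_card (fun s _ => h4 s :
              (Finset.univ : Finset (Fin (m + 1))) ⊆ {k, l})
            rw [Finset.card_univ] at h5
            omega
          simp only [Finset.mem_insert, Finset.mem_singleton, not_or] at hs
          exact ⟨s, hs.1, hs.2⟩
        exact hl k s l hs1.symm hs2 hkl (hA s l hs1 hs2)
      · exact hA k l hkj hkl
    have hEE : EE R (m + 1) (1 - ζ') ≤ N.map (En R (m + 1)).subtype := by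
      unfold EE
      rw [Subgroup.closure_le]
      rintro y ⟨h, k, l, b, hh, hkl, hy⟩
      refine ⟨⟨h, hh⟩ * TT k l hkl ((1 - ζ') * b) * ⟨h, hh⟩⁻¹, hN.conj_mem _ (hB k l hkl hkl b) _, ?_⟩
      apply Units.ext
      rw [hy]
      rfl
    obtain ⟨y, hy, hyx⟩ := hEE hx
    have : y = x := Subtype.ext hyx
    rw [← this]
    exact hy

end Q184.ZI
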